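import Pool.Agent.MDG.StmtsZ

/-!
# MDG, row DGT: total weight of a sparse symmetric matrix
-/

set_option autoImplicit false

open Finset Matrix Pool.Agent.HEC

namespace Pool.Agent.MDG.H62

open Classical in
theorem split {V : Type} (d : V → V → ℕ) (hsym : ∀ w v, d w v = d v w) {X Y : Finset V}
    (hYX : Y ⊆ X) : ∑ w ∈ X, ∑ v ∈ X, d w v = (∑ w ∈ Y, ∑ v ∈ Y, d w v) +
      (∑ w ∈ X \ Y, ∑ v ∈ X \ Y, d w v) + 2 * ∑ w ∈ Y, ∑ v ∈ X \ Y, d w v := by
  have h1 : ∀ f : V → ℕ, ∑ w ∈ X, f w = ∑ w ∈ X \ Y, f w + ∑ w ∈ Y, f w := fun f =>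
    (Finset.sum_sdiff hYX).symm
  have h2 : ∑ w ∈ X \ Y, ∑ v ∈ Y, d w v = ∑ w ∈ Y, ∑ v ∈ X \ Y, d w v := by
    rw [Finset.sum_comm]
    exact Finset.sum_congr rfl fun w _ => Finset.sum_congr rfl fun v _ => hsym v w
  have h3 : ∑ w ∈ X, ∑ v ∈ X, d w v =
      ∑ w ∈ X \ Y, (∑ v ∈ X \ Y, d w v + ∑ v ∈ Y, d w v) +
        ∑ w ∈ Y, (∑ v ∈ X \ Y, d w v + ∑ v ∈ Y, d w v) := by
    rw [h1 fun w => ∑ v ∈ X, d w v]
    simp only [h1]
  rw [h3, Finset.sum_add_distrib, Finset.sum_add_distrib, h2]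
  ring

theorem dgt : DgtStmt := by
  classical
  intro V _ d k X0 hk hsym hdiag hcut
  obtain ⟨j, rfl⟩ : ∃ j, k = j + 1 := ⟨k - 1, by omega⟩
  have key : ∀ n : ℕ, ∀ X : Finset V, X.card ≤ n → X ⊆ X0 → X.Nonempty →
      ∑ w ∈ X, ∑ v ∈ X, d w v + 2 * j ≤ 2 * j * X.card := by
    intro n
    induction n with
    | zero =>
      intro X hn _ hne
      exact absurd hne.card_pos (by omega)
    | succ n ih =>
      intro X hn hX hne
      rcases Nat.lt_or_ge X.card 2 with h | h
      · have h1 : X.card = 1 := by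
          have := hne.card_pos
          omega
        obtain ⟨a, rfl⟩ := Finset.card_eq_one.1 h1
        rw [Finset.sum_singleton, Finset.sum_singleton, hdiag, Finset.card_singleton]
        omega
      · obtain ⟨Y, hYX, hYne, hYX', hlt⟩ := hcut X hX h
        have hZne : (X \ Y).Nonempty := by
          rw [Finset.sdiff_nonempty]
          exact fun h' => hYX' (Finset.Subset.antisymm hYX h')
        have hcard : (X \ Y).card + Y.card = X.card := Finset.card_sdiff_add_card_eq_card hYX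
        have c1 := hYne.card_pos
        have c2 := hZne.card_pos
        have e1 := ih Y (by omega) (hYX.trans hX) hYne
        have e2 := ih (X \ Y) (by omega) (Finset.sdiff_subset.trans hX) hZne
        rw [split d hsym hYX, ← hcard]
        nlinarith
  intro X hX
  rcases X.eq_empty_or_nonempty with rfl | hne
  · simp
  · have h1 := key X.card X le_rfl hX hne
    nlinarith

end Pool.Agent.MDG.H62
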